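import Pool.Agent.W128.VA.Stm

/-!
# Project VA, part OM01: the modes `omega_0` and `omega_1`
-/

set_option autoImplicit false

namespace Pool.Agent.W699.VA.OM01

open Finset Pool.Agent.W128.VA

lemma bi_zero (j : ℕ) : bi 0 j = if j = 0 then 1 else 0 := by
  unfold bi
  rw [Ring.choose_zero_ite]
  split_ifs <;> simp

lemma cf_neg_one (j : ℕ) : cf (-1) j = 1 := by
  unfold cf
  have h : Ring.choose (-1 : ℤ) j = (-1) ^ j := by
    rw [Ring.choose, show (-1 : ℤ) - j + 1 = -(j : ℤ) by ring, Ring.multichoose_neg_self]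
  rw [h]
  push_cast
  rw [← mul_pow]
  norm_num

/-- the element `h` -/
noncomputable def hh : V0 := Finsupp.single 0 (MvPolynomial.X 0)

/-- the element `e` -/
noncomputable def ee : V0 := Finsupp.single 1 1

lemma hR_pos (j : ℕ) (k : ℤ) (p : R0) :
    hR ((j : ℤ) + 1) k p = (2 * ((j : ℂ) + 1)) • MvPolynomial.pderiv j p := by
  unfold hR
  rw [if_neg (by omega), if_neg (by omega)]
  simp

lemma hR_neg (j : ℕ) (k : ℤ) (p : R0) :
    hR (-((j : ℤ) + 1)) k p = MvPolynomial.X j * p := by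
  unfold hR
  rw [if_pos (by omega)]
  have : (- -((j : ℤ) + 1) - 1).toNat = j := by omega
  rw [this]
  rfl

lemma hR_zero (k : ℤ) (p : R0) : hR 0 k p = (2 * (k : ℂ)) • p := by
  unfold hR
  rw [if_neg (by omega), if_pos rfl]
  rfl

lemma D_one : D 1 = 0 := by
  unfold D
  exact Derivation.map_one_eq_zero _

lemma om0_eq : om0 = (1 / 4 : ℂ) • hop (-1) hh + (1 / 2 : ℂ) • T0 hh + T0 (T0 ee) := by
  have h1 : hop (-1) hh = Finsupp.single 0 (MvPolynomial.X 0 * MvPolynomial.X 0) := by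
    unfold hh
    rw [hop_single]
    have := hR_neg 0 0 (MvPolynomial.X 0)
    simp only [Nat.cast_zero, zero_add] at this
    rw [this]
  have h2 : T0 hh = Finsupp.single 0 (MvPolynomial.X 1) := by
    unfold hh
    rw [T0_single, D_X]
    simp
  have h3 : T0 ee = Finsupp.single 1 (MvPolynomial.X 0) := by
    unfold ee
    rw [T0_single, D_one]
    simp
  have h4 : T0 (T0 ee) = Finsupp.single 1 (MvPolynomial.X 1 + MvPolynomial.X 0 * MvPolynomial.X 0) := by
    rw [h3, T0_single, D_X]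
    simp
  rw [h1, h2, h4]
  unfold om0
  rw [Finsupp.single_add, Finsupp.smul_single, Finsupp.smul_single, pow_two]

/-- the modes of `om0` -/
lemma Y_om0 (F : FY) (n : ℤ) (w : V0) : F.Y om0 n w = (1 / 4 : ℂ) • F.Y (hop (-1) hh) n w
    - ((n : ℂ) / 2) • hop (n - 1) w + ((n : ℂ) * (n - 1)) • eV 1 (n - 2) w := by
  have h1 : F.Y (T0 hh) n = (-(n : ℂ)) • hop (n - 1) := by
    rw [F.Tder]
    unfold hh
    rw [F.Yh]
  have h2 : F.Y (T0 (T0 ee)) n = ((n : ℂ) * (n - 1)) • eV 1 (n - 2) := by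
    rw [F.Tder, F.Tder]
    unfold ee
    rw [F.Ye, smul_smul]
    congr 1
    · push_cast
      ring
    · congr 1
      ring
  rw [om0_eq, map_add, map_add, map_smul, map_smul]
  simp only [Pi.add_apply, Pi.smul_apply, h1, h2, LinearMap.add_apply, LinearMap.smul_apply]
  have e : ((1 / 2 : ℂ) * -(n : ℂ)) = -((n : ℂ) / 2) := by ring
  rw [smul_smul, e, neg_smul]
  abel

/-- the normally ordered product -/
lemma Y_hh (F : FY) (n : ℤ) (w : V0) (L : ℕ) (hL : 3 ≤ L)
    (h1 : ∀ j : ℕ, L ≤ j → hop (n + j) w = 0) (h2 : ∀ j : ℕ, L ≤ j → hop j w = 0) :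
    F.Y (hop (-1) hh) n w = ∑ j ∈ range L, (hop (-1 - j) (hop (n + j) w)
      + hop (n - 1 - j) (hop j w)) := by
  have hY : F.Y hh = hop := F.Yh
  have hb := F.bor hh hh w (-1) 0 n L (by
    intro j hj
    rw [hY]
    unfold hh
    rw [hop_single]
    obtain ⟨i, rfl⟩ : ∃ i, j = i + 2 := ⟨j - 2, by omega⟩
    have e : (-1 : ℤ) + ((i + 2 : ℕ) : ℤ) = ((i : ℤ)) + 1 := by push_cast; ring
    rw [e, hR_pos, MvPolynomial.pderiv_X_of_ne (by omega)]
    simp) (by rw [hY]; exact h1) (by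
    intro j hj
    rw [hY, zero_add]
    exact h2 j hj)
  rw [hY] at hb
  have hl : ∑ j ∈ range L, bi 0 j • F.Y (hop (-1 + (j : ℤ)) hh) (0 + n - (j : ℤ)) w
      = F.Y (hop (-1) hh) n w := by
    rw [Finset.sum_eq_single 0]
    · rw [bi_zero, if_pos rfl, one_smul]
      simp
    · intro j _ hj
      rw [bi_zero, if_neg hj, zero_smul]
    · intro h
      exact absurd (Finset.mem_range.2 (by omega)) h
  rw [hl] at hb
  rw [hb]
  refine Finset.sum_congr rfl fun j _ => ?_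
  rw [cf_neg_one, one_smul, zero_add, zero_add]
  have e1 : ((-1 : ℂ) ^ (-1 : ℤ)) = -1 := by norm_num
  rw [e1, neg_smul, one_smul, sub_neg_eq_add]
  congr 2

/-- the monomials -/
noncomputable abbrev mo (k : ℤ) (d : ℕ →₀ ℕ) : V0 := Finsupp.single k (MvPolynomial.monomial d 1)

lemma hop_large (k : ℤ) (d : ℕ →₀ ℕ) (j : ℕ) (hj : d j = 0) :
    hop ((j : ℤ) + 1) (mo k d) = 0 := by
  rw [hop_single, hR_pos, MvPolynomial.pderiv_monomial, hj]
  simp

lemma exists_L (d : ℕ →₀ ℕ) : ∃ M : ℕ, 2 ≤ M ∧ ∀ j, M ≤ j → d j = 0 := by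
  refine ⟨d.support.sup id + 2, by omega, fun j hj => ?_⟩
  by_contra h
  have h1 : j ∈ d.support := Finsupp.mem_support_iff.2 h
  have h2 : id j ≤ d.support.sup id := Finset.le_sup h1
  simp only [id] at h2
  omega

lemma D_mono (d : ℕ →₀ ℕ) (M : ℕ) (hM : ∀ j, M ≤ j → d j = 0) :
    D (MvPolynomial.monomial d 1) = ∑ j ∈ range M, ((j : ℂ) + 1) •
      (MvPolynomial.X (j + 1) * MvPolynomial.pderiv j (MvPolynomial.monomial d 1)) := by
  unfold D
  change (MvPolynomial.mkDerivation ℂ fun i : ℕ =>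
    (((i : ℂ) + 1) • (MvPolynomial.X (i + 1) : R0)) : Derivation ℂ R0 R0)
      (MvPolynomial.monomial d 1) = _
  rw [MvPolynomial.mkDerivation_monomial, one_smul, Finsupp.sum_of_support_subset (s := range M)]
  · refine Finset.sum_congr rfl fun j _ => ?_
    rw [MvPolynomial.pderiv_monomial, one_mul, smul_eq_mul, mul_smul_comm, mul_comm]
  · intro j hj
    rw [Finset.mem_range]
    by_contra h
    exact (Finsupp.mem_support_iff.1 hj) (hM j (not_lt.1 h))
  · intro j _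
    simp

lemma case0 (F : FY) (k : ℤ) (d : ℕ →₀ ℕ) : F.Y om0 0 (mo k d) = T0 (mo k d) := by
  obtain ⟨M, hM2, hM⟩ := exists_L d
  have hlarge : ∀ j : ℕ, M + 1 ≤ j → hop (j : ℤ) (mo k d) = 0 := by
    intro j hj
    obtain ⟨i, rfl⟩ : ∃ i, j = i + 1 := ⟨j - 1, by omega⟩
    push_cast
    exact hop_large k d i (hM i (by omega))
  rw [Y_om0, Y_hh F 0 (mo k d) (M + 1) (by omega) (by
    intro j hj
    rw [zero_add]
    exact hlarge j hj) hlarge]
  have e : ∀ j : ℕ, hop (-1 - (j : ℤ)) (hop (0 + (j : ℤ)) (mo k d))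
      + hop (0 - 1 - (j : ℤ)) (hop (j : ℤ) (mo k d))
      = (2 : ℂ) • hop (-((j : ℤ) + 1)) (hop (j : ℤ) (mo k d)) := by
    intro j
    rw [zero_add, two_smul]
    congr 2 <;> congr 1 <;> ring
  rw [Finset.sum_congr rfl (fun j _ => e j), ← Finset.smul_sum, Finset.sum_range_succ']
  have e0 : hop (-(((0 : ℕ) : ℤ) + 1)) (hop ((0 : ℕ) : ℤ) (mo k d))
      = Finsupp.single k ((2 * (k : ℂ)) • (MvPolynomial.X 0 * MvPolynomial.monomial d 1)) := by
    rw [hop_single, hop_single, hR_neg, Nat.cast_zero, hR_zero, mul_smul_comm]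
  have e1 : ∀ j : ℕ, hop (-(((j + 1 : ℕ) : ℤ) + 1)) (hop ((j + 1 : ℕ) : ℤ) (mo k d))
      = Finsupp.single k ((2 : ℂ) • (((j : ℂ) + 1) • (MvPolynomial.X (j + 1) *
        MvPolynomial.pderiv j (MvPolynomial.monomial d 1)))) := by
    intro j
    rw [hop_single, hop_single, hR_neg]
    have : (((j + 1 : ℕ) : ℤ)) = (j : ℤ) + 1 := by push_cast; ring
    rw [this, hR_pos, mul_smul_comm, smul_smul]
  rw [e0, Finset.sum_congr rfl (fun j _ => e1 j), T0_single, D_mono d M hM]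
  have e2 : ∑ j ∈ range M, (Finsupp.single k ((2 : ℂ) • (((j : ℂ) + 1) • (MvPolynomial.X (j + 1) *
        MvPolynomial.pderiv j (MvPolynomial.monomial d 1)))) : V0) =
      Finsupp.single k ((2 : ℂ) • ∑ j ∈ range M, ((j : ℂ) + 1) • (MvPolynomial.X (j + 1) *
        MvPolynomial.pderiv j (MvPolynomial.monomial d 1))) := by
    rw [Finset.smul_sum]
    exact (map_sum (Finsupp.singleAddHom k) _ _).symm
  rw [e2, ← Finsupp.single_add, Finsupp.smul_single, Finsupp.smul_single]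
  simp only [Int.cast_zero, zero_div, zero_smul, sub_zero, zero_mul, add_zero]
  congr 1
  rw [smul_add, smul_add, smul_smul, smul_smul, smul_smul, smul_smul]
  congr 1
  · norm_num
  · congr 1
    ring

/-- `h_(-i) h_i` -/
lemma hop_hop (k : ℤ) (d : ℕ →₀ ℕ) (j : ℕ) :
    hop (-((j : ℤ) + 1)) (hop ((j : ℤ) + 1) (mo k d)) =
      (2 * (((j : ℂ) + 1) * d j)) • mo k d := by
  rw [hop_single, hop_single, hR_neg, hR_pos, mul_smul_comm, MvPolynomial.X_mul_pderiv_monomial,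
    Finsupp.smul_single]
  congr 1
  rw [← Nat.cast_smul_eq_nsmul ℂ, smul_smul]
  congr 1
  ring

lemma case1 (F : FY) (k : ℤ) (d : ℕ →₀ ℕ) : F.Y om0 1 (mo k d) = (wt0 k d : ℂ) • mo k d := by
  obtain ⟨M, hM2, hM⟩ := exists_L d
  have hlarge : ∀ j : ℕ, M + 1 ≤ j → hop (j : ℤ) (mo k d) = 0 := by
    intro j hj
    obtain ⟨i, rfl⟩ : ∃ i, j = i + 1 := ⟨j - 1, by omega⟩
    push_cast
    exact hop_large k d i (hM i (by omega))
  rw [Y_om0, Y_hh F 1 (mo k d) (M + 1) (by omega) (by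
    intro j hj
    have := hlarge (1 + j) (by omega)
    push_cast at this
    exact this) hlarge]
  rw [Finset.sum_add_distrib, Finset.sum_range_succ, Finset.sum_range_succ']
  have e1 : ∀ j : ℕ, hop (-1 - (j : ℤ)) (hop (1 + (j : ℤ)) (mo k d)) =
      (2 * (((j : ℂ) + 1) * d j)) • mo k d := by
    intro j
    rw [← hop_hop]
    congr 2 <;> congr 1 <;> ring
  have e2 : ∀ j : ℕ, hop (1 - 1 - ((j + 1 : ℕ) : ℤ)) (hop ((j + 1 : ℕ) : ℤ) (mo k d)) =
      (2 * (((j : ℂ) + 1) * d j)) • mo k d := by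
    intro j
    rw [← hop_hop]
    have h1 : (1 - 1 - ((j + 1 : ℕ) : ℤ)) = -((j : ℤ) + 1) := by push_cast; ring
    have h2 : (((j + 1 : ℕ) : ℤ)) = (j : ℤ) + 1 := by push_cast; ring
    rw [h1, h2]
  have e3 : hop (1 - 1 - ((0 : ℕ) : ℤ)) (hop ((0 : ℕ) : ℤ) (mo k d)) =
      (4 * (k : ℂ) ^ 2) • mo k d := by
    have h1 : (1 - 1 - ((0 : ℕ) : ℤ)) = 0 := by simp
    rw [h1, Nat.cast_zero, hop_single, hop_single, hR_zero, hR_zero, smul_smul,
      Finsupp.smul_single]
    congr 2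
    ring
  have e4 : hop (1 - 1) (mo k d) = (2 * (k : ℂ)) • mo k d := by
    rw [sub_self, hop_single, hR_zero, Finsupp.smul_single]
  rw [Finset.sum_congr rfl (fun j _ => e1 j), Finset.sum_congr rfl (fun j _ => e2 j), e3, e1, e4,
    hM M le_rfl, ← Finset.sum_smul]
  have e5 : (wt0 k d : ℂ) = (k : ℂ) ^ 2 - k + ∑ j ∈ range M, ((j : ℂ) + 1) * d j := by
    unfold wt0
    rw [Finsupp.sum_of_support_subset (s := range M)]
    · push_cast
      ring
    · intro j hj
      rw [Finset.mem_range]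
      by_contra h
      exact (Finsupp.mem_support_iff.1 hj) (hM j (not_lt.1 h))
    · intro j _
      simp
  rw [e5, ← Finset.mul_sum]
  simp only [Nat.cast_zero, mul_zero, zero_smul, add_zero, Int.cast_one, sub_self]
  rw [← add_smul, ← add_smul, smul_smul, smul_smul, ← sub_smul]
  congr 1
  ring

theorem main : S_OM01 := by
  intro F
  refine ⟨fun v => ?_, fun k d => case1 F k d⟩
  have h : F.Y om0 0 = T0 := by
    refine Finsupp.lhom_ext' fun k => ?_
    refine (MvPolynomial.basisMonomials ℕ ℂ).ext fun d => ?_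
    rw [MvPolynomial.coe_basisMonomials]
    exact case0 F k d
  rw [h]

end Pool.Agent.W699.VA.OM01
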